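import Pool.Agent.Helper27.VF.Goals

set_option autoImplicit false

/-! # Project VF: the ultrafilter lives on the torso -/

namespace Pool.Agent.Helper59.VF

open Pool.Agent.Helper27.VF

universe u

theorem tob (hLoc : LocStmt.{u}) : TobStmt.{u} := by
  intro A W _ _ G G₀ w p h k hk
  have h2 : ∀ d ∈ DD A G p k, ¬ Inn p (1 : A) d.2 := by
    intro d hd
    rw [inn_snd h hd.1.1, not_not]
    exact hd.2.1
  have h1 : ∀ d ∈ DD A G p k, w ∉ d.2 := by
    intro d hd hw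
    exact h2 d hd (fact1' h hd.1.1 (a := (1 : A)) (by rwa [one_smul]))
  refine ⟨Or.inl h1, ?_⟩
  have hfin : {d | d ∈ DD A G p k ∧ w ∈ sep d}.Finite := by
    refine ((hLoc A W G G₀ w p h k hk).1 w).subset ?_
    rintro d ⟨hd, hw⟩
    exact ⟨hd.1, hw⟩
  have hI : (⋂ d ∈ {d | d ∈ DD A G p k ∧ w ∈ sep d}, (d.2)ᶜ) ∈ p := by
    rw [Ultrafilter.mem_coe.symm, Filter.biInter_mem hfin]
    intro d hd
    have h3 := h2 d hd.1
    rw [inn_one] at h3
    exact Ultrafilter.compl_mem_iff_notMem.2 h3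
  refine Filter.mem_of_superset (Filter.inter_mem h.nb hI) ?_
  rintro x ⟨hx1, hx2⟩
  left
  intro d hd hx
  have hw1 : w ∉ d.1 := fun hw => hd.1.1.no w hw x hx hx1
  have hw2 : w ∈ sep d := mem_sep.2 ⟨hw1, h1 d hd⟩
  rw [Set.mem_iInter₂] at hx2
  exact hx2 d ⟨hd, hw2⟩ hx

end Pool.Agent.Helper59.VF
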