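import Pool.Agent.Helper96.VF.Goals

/-!
# Project VF, packet UP5: the upper bound in the model without quotient 5
-/

set_option autoImplicit false

namespace Pool.Agent.Helper96.VF

theorem up5_quot {a b a' b' m : ℕ} (h1 : a ≤ a') (h2 : b ≤ b') :
    2 ^ a' * 3 ^ b' * m = 2 ^ (a' - a) * 3 ^ (b' - b) * (2 ^ a * 3 ^ b * m) := by
  have e1 : (2 : ℕ) ^ a' = 2 ^ (a' - a) * 2 ^ a := by
    rw [← pow_add]
    congr 1
    omega
  have e2 : (3 : ℕ) ^ b' = 3 ^ (b' - b) * 3 ^ b := by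
    rw [← pow_add]
    congr 1
    omega
  rw [e1, e2]
  ring

theorem up5_one_lt {a b : ℕ} (h : a ≠ 0 ∨ b ≠ 0) : 1 < 2 ^ a * 3 ^ b := by
  have h2 : 0 < 2 ^ a := by positivity
  have h3 : 0 < 3 ^ b := by positivity
  rcases h with h | h
  · have : 1 < 2 ^ a := Nat.one_lt_pow h (by norm_num)
    nlinarith
  · have : 1 < 3 ^ b := Nat.one_lt_pow h (by norm_num)
    nlinarith

theorem gUP5 (h1 : U1) (h4 : CLS) (h5 : UNQ) : UP5 := by
  intro D n A hD hA hAdm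
  rw [h4 n A hA]
  unfold F5
  refine Finset.sum_le_sum fun m hm => ?_
  unfold Cop at hm
  rw [Finset.mem_filter, Finset.mem_Icc] at hm
  obtain ⟨⟨hm1, hmn⟩, hmc⟩ := hm
  refine h1 (n / m) _ ?_ ?_
  · intro u hu v hv w hw huv huw hvw hle
    rw [Finset.mem_filter] at hu hv hw
    have key : ∀ x y : ℕ × ℕ, x ≤ y → x ≠ y →
        ∃ k ∈ D, 2 ^ y.1 * 3 ^ y.2 * m = k * (2 ^ x.1 * 3 ^ x.2 * m) := by
      intro x y hxy hne
      refine ⟨2 ^ (y.1 - x.1) * 3 ^ (y.2 - x.2), hD _ _ (up5_one_lt ?_),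
        up5_quot hxy.1 hxy.2⟩
      by_contra hcon
      push Not at hcon
      have e1 := hxy.1
      have e2 := hxy.2
      exact hne (Prod.ext (by omega) (by omega))
    have inj : ∀ x y : ℕ × ℕ, x ≠ y → 2 ^ x.1 * 3 ^ x.2 * m ≠ 2 ^ y.1 * 3 ^ y.2 * m := by
      intro x y hne heq
      obtain ⟨e1, e2, _⟩ := h5 x.1 x.2 m y.1 y.2 m hmc hmc heq
      exact hne (Prod.ext e1 e2)
    exact hAdm _ hu.2 _ hv.2 _ hw.2 (inj u v huv) (inj u w huw) (inj v w hvw)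
      ⟨key u v hle.1 huv, key u w hle.2 huw⟩
  · intro u hu
    rw [Finset.mem_filter] at hu
    have h6 := Finset.mem_Icc.1 (hA hu.2)
    rw [Nat.le_div_iff_mul_le (by omega)]
    exact h6.2

end Pool.Agent.Helper96.VF
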